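import Pool.Agent.LE.StmtsQX
import Pool.Agent.Helper38_LQF.OUT

/-!
# Squad LQX, UPD: the part of `W`
-/

set_option autoImplicit false
set_option linter.unusedSectionVars false

open MeasureTheory ProbabilityTheory Function Filter

open scoped ENNReal BigOperators Topology NNReal ComplexOrder Matrix

noncomputable section

namespace Pool.Agent.LE.QX.H38

open Pool.Agent.Anderson hiding box mem_box card_box
open Pool.Agent.Loc Pool.Agent.Mob Pool.Agent.Helper54.Bal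
  Pool.Agent.Helper96.EXP Pool.Agent.BED
open Pool.Agent.LE.MN Pool.Agent.LE.CL Pool.Agent.LE.IR Pool.Agent.LE.QD Pool.Agent.LE.QF
open Pool.Agent.LE.QF.H38

section Mat

variable {X : Type} [Fintype X] [DecidableEq X]

theorem Dl_symm {K : Matrix X X ℝ} (hK : ∀ a b, K a b = K b a) (a b : X) :
    Dl K a b = Dl K b a := by
  unfold Dl
  rw [Matrix.sub_apply, Matrix.sub_apply, hK a b]
  by_cases h : a = b
  · subst h
    rfl
  · rw [Matrix.diagonal_apply_ne _ h, Matrix.diagonal_apply_ne _ (Ne.symm h)]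

theorem Dl_row (K : Matrix X X ℝ) (a : X) : ∑ b, Dl K a b = 0 := by
  have h := sum_Dl K {a}
  unfold Dl
  simp only [Matrix.sub_apply]
  rw [Finset.sum_sub_distrib, Finset.sum_eq_single a, Matrix.diagonal_apply_eq, sub_self]
  · intro b _ hb
    rw [Matrix.diagonal_apply_ne _ (Ne.symm hb)]
  · intro h
    exact absurd (Finset.mem_univ a) h

theorem qf_Dl {K : Matrix X X ℝ} (hK : ∀ a b, K a b = K b a) (f : X → ℝ) :
    2 * qf (Dl K) f = ∑ a, ∑ b, K a b * (f a - f b) ^ 2 := by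
  have h1 : qf (Dl K) f = ∑ a, ∑ b, K a b * f a ^ 2 - ∑ a, ∑ b, K a b * (f a * f b) := by
    rw [qf_eq, ← Finset.sum_sub_distrib]
    refine Finset.sum_congr rfl fun a _ => ?_
    unfold Dl
    have h2 : ∀ b, f a * (Matrix.diagonal (fun a => ∑ b, K a b) - K) a b * f b =
        f a * Matrix.diagonal (fun a => ∑ b, K a b) a b * f b - K a b * (f a * f b) := by
      intro b
      rw [Matrix.sub_apply]
      ring
    simp only [h2]
    rw [Finset.sum_sub_distrib]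
    congr 1
    rw [Finset.sum_eq_single a]
    · rw [Matrix.diagonal_apply_eq, Finset.mul_sum, Finset.sum_mul]
      exact Finset.sum_congr rfl fun b _ => by ring
    · intro b _ hb
      rw [Matrix.diagonal_apply_ne _ (Ne.symm hb), mul_zero, zero_mul]
    · intro h
      exact absurd (Finset.mem_univ a) h
  have h2 : ∑ a, ∑ b, K a b * (f a - f b) ^ 2 = ∑ a, ∑ b, K a b * f a ^ 2 +
      ∑ a, ∑ b, K a b * f b ^ 2 - 2 * ∑ a, ∑ b, K a b * (f a * f b) := by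
    rw [Finset.mul_sum, ← Finset.sum_add_distrib, ← Finset.sum_sub_distrib]
    refine Finset.sum_congr rfl fun a _ => ?_
    rw [Finset.mul_sum, ← Finset.sum_add_distrib, ← Finset.sum_sub_distrib]
    exact Finset.sum_congr rfl fun b _ => by ring
  have h3 : ∑ a, ∑ b, K a b * f b ^ 2 = ∑ a, ∑ b, K a b * f a ^ 2 := by
    rw [Finset.sum_comm]
    exact Finset.sum_congr rfl fun a _ => Finset.sum_congr rfl fun b _ => by rw [hK b a]
  rw [h2, h3, h1]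
  ring

theorem qf_Dl_nonneg {K : Matrix X X ℝ} (hK : ∀ a b, K a b = K b a) (h0 : ∀ a b, 0 ≤ K a b)
    (f : X → ℝ) : 0 ≤ qf (Dl K) f := by
  have h1 := qf_Dl hK f
  have h2 : 0 ≤ ∑ a, ∑ b, K a b * (f a - f b) ^ 2 :=
    Finset.sum_nonneg fun a _ => Finset.sum_nonneg fun b _ => mul_nonneg (h0 a b) (sq_nonneg _)
  linarith

theorem smul_symm {A : Matrix X X ℝ} (h : ∀ a b, A a b = A b a) (c : ℝ) (a b : X) :
    (c • A) a b = (c • A) b a := by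
  rw [Matrix.smul_apply, Matrix.smul_apply, h a b]

theorem smul_row {A : Matrix X X ℝ} (h : ∀ a, ∑ b, A a b = 0) (c : ℝ) (a : X) :
    ∑ b, (c • A) a b = 0 := by
  simp only [Matrix.smul_apply, smul_eq_mul]
  rw [← Finset.mul_sum, h a, mul_zero]

theorem KK_symm {G : Matrix X X ℂ} (h : ∀ a b, G a b = G b a) (a b : X) :
    KK G a b = KK G b a := by
  unfold KK
  rw [h a b]

theorem mul_symm {A : Matrix X X ℝ} (h : ∀ a b, A a b = A b a) (a b : X) :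
    (A * A) a b = (A * A) b a := by
  rw [Matrix.mul_apply, Matrix.mul_apply]
  refine Finset.sum_congr rfl fun c _ => ?_
  rw [h a c, h c b, mul_comm]

theorem GD_symm {G : Matrix X X ℂ} (h : ∀ a b, G a b = G b a) (φ : X → ℂ) (a b : X) :
    GD G φ a b = GD G φ b a := by
  unfold GD
  have h1 : ∀ a b, (G * Matrix.diagonal φ * G) a b = ∑ c, G a c * φ c * G c b := by
    intro a b
    rw [Matrix.mul_apply]
    refine Finset.sum_congr rfl fun c _ => ?_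
    rw [Matrix.mul_diagonal]
  rw [h1, h1]
  refine Finset.sum_congr rfl fun c _ => ?_
  rw [h a c, h c b]
  ring

theorem EK_symm {G : Matrix X X ℂ} (h : ∀ a b, G a b = G b a) (μ : X → ℂ) (a b : X) :
    EK G μ a b = EK G μ b a := by
  unfold EK
  rw [h a b, GD_symm h μ a b]

theorem dK_symm {G : Matrix X X ℂ} (h : ∀ a b, G a b = G b a) (c a b : X) :
    dK G c a b = dK G c b a := by
  unfold dK
  rw [h a b, h a c, h c b, mul_assoc, mul_assoc, mul_comm (G c a)]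

end Mat

theorem kp_le {d M : ℕ} [NeZero M] (D : Dat d M) {c₁ C₁ c₀ : ℝ} (hc₁ : 0 < c₁)
    (had : Adm D c₁ C₁ c₀) {t : ℝ} (ht : 0 ≤ t) : D.kp t ≤ D.w := by
  unfold Dat.w Dat.kp
  have h1 : 0 < D.m.im := lt_of_lt_of_le hc₁ had.hm.1
  have h2 : 0 ≤ t * D.m.im := mul_nonneg ht h1.le
  linarith

/-- UPD -/
theorem upd (jtb : JtbStmt) (wfb : WfbStmt) (wtu : WtuStmt) (rsj : RsjStmt) (nnu : NnuStmt) :
    UpdStmt := by
  intro c₁ C₁ C₀ hc₁ hC₁ hC₀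
  obtain ⟨Cw, hCw, hwfb⟩ := wfb C₀ hC₀
  have hCw0 : 0 < Cw := by linarith
  have hC₀0 : 0 < C₀ := by linarith
  refine ⟨1 / Cw, 6 * Cw * C₀, by positivity, by nlinarith, ?_⟩
  intro d M _ D c₀ κ τ q hc₀ had hq0 hqT hgoo
  obtain ⟨hκ1, hτ1, hηκ, hκw, hτ0, hτκ, hκτ⟩ := hgoo.hκ
  obtain ⟨hT0, hη0, hw1, hηT⟩ := had.hT
  have hκ0 : 0 < κ := lt_of_lt_of_le hη0 hηκ
  have hkp : 0 < D.kp q.1 := by rw [← hκ1]; exact hκ0
  obtain ⟨hJ, -⟩ := rsj d M D c₁ C₁ c₀ q hc₁ had hkp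
  rw [← hτ1] at hJ
  have hs := hJ.hs
  obtain ⟨ht1, ht2, ht3⟩ := hJ.ht
  -- the jet of the Laplacian
  have hX : HM D.X q (τ • Dl (KK (D.G q))) (fun c => τ • Dl (dK (D.G q) c))
      (τ • Dl (KK (D.G q) * KK (D.G q) + EK (D.G q) (D.mu q)) - Dl (KK (D.G q))) :=
    (jtb (Tor d M) q D.G D.ta (D.G q) D.m τ (D.mu q) hJ rfl).2.2.2.2
  have hw := fun f => hwfb (Tor d M) (D.G q) (D.mu q) D.nr κ τ D.δ D.N hgoo.hG f
  have hδ0 : 0 < D.δ := had.hδ.1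
  have hδc : D.δ ≤ c₀ := had.hδ.2.1.trans had.hδ.2.2
  obtain ⟨he1, he2, he3⟩ := had.he
  have he0 : 1 ≤ D.e₀ := by linarith
  obtain ⟨hj2, hp2, hL0, hN1, hπ0⟩ := had.hj
  obtain ⟨hS1, hS2, hS3, hS4⟩ := had.hS
  obtain ⟨hϖ0, hϖδ, hϖA⟩ := had.hϖ
  have hMd : 0 < (M : ℝ) ^ d := by
    have : 0 < (M : ℝ) := Nat.cast_pos.2 (Nat.pos_of_ne_zero (NeZero.ne M))
    positivity
  have hSa : ∀ a, D.S a a ≤ D.π₀ := by
    intro a
    have h1 := hS4 a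
    have h2 : 0 ≤ 1 / (D.η * (M : ℝ) ^ d) := by positivity
    linarith
  have hw0 : 0 < D.w := lt_of_lt_of_le hκ0 hκw
  -- the noise
  obtain ⟨B, hB⟩ : ∃ B, B = D.N * D.w + D.δ ^ 2 + D.π₀ := ⟨_, rfl⟩
  have hB0 : 0 ≤ B := by
    rw [hB]
    positivity
  obtain ⟨ν, hν⟩ : ∃ ν, ν = 2 * Cw * C₀ / κ * B := ⟨_, rfl⟩
  have hν0 : 0 ≤ ν := by
    rw [hν]
    positivity
  have hqv : ∀ f, 0 ≤ qf (τ • Dl (KK (D.G q))) f := by
    intro f
    rw [qf_smul]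
    refine mul_nonneg hτ0.le (qf_Dl_nonneg (KK_symm hs) (fun a b => ?_) f)
    unfold KK
    positivity
  have hnoise : ∀ f : Tor d M → ℝ, ∑ c, qf (D.e₀ • (1 : Matrix (Tor d M) (Tor d M) ℝ) + τ • D.S)
      ((τ • Dl (dK (D.G q) c)) *ᵥ f) ≤ ν * qf (τ • Dl (KK (D.G q))) f := by
    intro f
    obtain ⟨-, h2, h3⟩ := hw f
    have h3' := h3 D.S D.π₀ hS1 hS2 hSa
    have e1 : ∑ c, qf (D.e₀ • (1 : Matrix (Tor d M) (Tor d M) ℝ) + τ • D.S)
        ((τ • Dl (dK (D.G q) c)) *ᵥ f) =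
        D.e₀ * ∑ c, ∑ a, ((τ • Dl (dK (D.G q) c)) *ᵥ f) a ^ 2 +
          τ * ∑ c, qf D.S ((τ • Dl (dK (D.G q) c)) *ᵥ f) := by
      rw [Finset.mul_sum, Finset.mul_sum, ← Finset.sum_add_distrib]
      refine Finset.sum_congr rfl fun c _ => ?_
      rw [QF.H38.qf_add, QF.H38.qf_smul, QF.H38.qf_smul, QF.H38.qf_one]
    rw [e1]
    have h4 : D.e₀ * ∑ c, ∑ a, ((τ • Dl (dK (D.G q) c)) *ᵥ f) a ^ 2 ≤
        2 * (Cw * (D.N + D.δ ^ 2 / κ) * qf (τ • Dl (KK (D.G q))) f) := by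
      have h5 : 0 ≤ ∑ c, ∑ a, ((τ • Dl (dK (D.G q) c)) *ᵥ f) a ^ 2 :=
        Finset.sum_nonneg fun c _ => Finset.sum_nonneg fun a _ => sq_nonneg _
      exact mul_le_mul he3 h2 h5 (by norm_num)
    have h5 : τ * ∑ c, qf D.S ((τ • Dl (dK (D.G q) c)) *ᵥ f) ≤
        (C₀ * κ) * (Cw * D.π₀ / κ ^ 2 * qf (τ • Dl (KK (D.G q))) f) := by
      have h6 : 0 ≤ ∑ c, qf D.S ((τ • Dl (dK (D.G q) c)) *ᵥ f) :=
        Finset.sum_nonneg fun c _ => hS2 _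
      exact mul_le_mul hτκ h3' h6 (by positivity)
    have h6 : 2 * (Cw * (D.N + D.δ ^ 2 / κ)) + (C₀ * κ) * (Cw * D.π₀ / κ ^ 2) ≤ ν := by
      rw [hν, hB]
      have h7 : D.N ≤ D.N * D.w / κ := by
        rw [le_div_iff₀ hκ0]
        exact mul_le_mul_of_nonneg_left hκw (by linarith)
      have h8 : 2 * (Cw * (D.N + D.δ ^ 2 / κ)) + (C₀ * κ) * (Cw * D.π₀ / κ ^ 2) ≤
          2 * (Cw * (D.N * D.w / κ + D.δ ^ 2 / κ)) + (C₀ * κ) * (Cw * D.π₀ / κ ^ 2) := by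
        have : Cw * (D.N + D.δ ^ 2 / κ) ≤ Cw * (D.N * D.w / κ + D.δ ^ 2 / κ) :=
          mul_le_mul_of_nonneg_left (by linarith) hCw0.le
        linarith
      refine h8.trans ?_
      have e2 : 2 * (Cw * (D.N * D.w / κ + D.δ ^ 2 / κ)) + (C₀ * κ) * (Cw * D.π₀ / κ ^ 2) =
          2 * Cw * (D.N * D.w + D.δ ^ 2) / κ + C₀ * Cw * D.π₀ / κ := by
        field_simp
      have e3 : 2 * Cw * C₀ / κ * (D.N * D.w + D.δ ^ 2 + D.π₀) =
          C₀ * (2 * Cw * (D.N * D.w + D.δ ^ 2) / κ) + 2 * (C₀ * Cw * D.π₀ / κ) := by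
        field_simp
      rw [e2, e3]
      have h9 : 0 ≤ 2 * Cw * (D.N * D.w + D.δ ^ 2) / κ := by positivity
      have h10 : 0 ≤ C₀ * Cw * D.π₀ / κ := by positivity
      nlinarith
    have h7 := mul_le_mul_of_nonneg_right h6 (hqv f)
    linarith
  -- the form bound for `ϖ`
  have hϖ' : ∀ f : Tor d M → ℝ, D.ϖ * qf (D.e₀ • (1 : Matrix (Tor d M) (Tor d M) ℝ) +
      τ • D.S) f ≤ (Cw * D.δ) * ∑ a, f a ^ 2 := by
    intro f
    have h1 := hϖA f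
    have hA0 : D.A 0 = D.e₀ • (1 : Matrix (Tor d M) (Tor d M) ℝ) + D.ta 0 • D.S := rfl
    rw [hA0, QF.H38.qf_add, QF.H38.qf_smul, QF.H38.qf_smul, QF.H38.qf_one] at h1
    rw [QF.H38.qf_add, QF.H38.qf_smul, QF.H38.qf_smul, QF.H38.qf_one]
    have hm0 : 0 < D.m.im := lt_of_lt_of_le hc₁ had.hm.1
    have h2 : τ ≤ D.ta 0 := by
      rw [hτ1]
      unfold Dat.ta
      exact div_le_div_of_nonneg_right (kp_le D hc₁ had hq0) hm0.le
    have h3 : τ * qf D.S f ≤ D.ta 0 * qf D.S f := mul_le_mul_of_nonneg_right h2 (hS2 f)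
    have h4 : 0 ≤ ∑ a, f a ^ 2 := Finset.sum_nonneg fun a _ => sq_nonneg _
    have h5 : D.ϖ * (D.e₀ * ∑ a, f a ^ 2 + τ * qf D.S f) ≤
        D.ϖ * (D.e₀ * ∑ a, f a ^ 2 + D.ta 0 * qf D.S f) :=
      mul_le_mul_of_nonneg_left (by linarith) hϖ0.le
    have h6 : D.δ * ∑ a, f a ^ 2 ≤ Cw * D.δ * ∑ a, f a ^ 2 :=
      mul_le_mul_of_nonneg_right (by nlinarith) h4
    linarith
  have hδ1 : Cw * D.δ ≤ 1 := by
    have h1 : D.δ ≤ 1 / Cw := hδc.trans hc₀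
    rwa [le_div_iff₀ hCw0, mul_comm] at h1
  -- the row `WTU`
  obtain ⟨g', l', hHJ, hl'⟩ := wtu (Tor d M) q D.X D.ta (τ • Dl (KK (D.G q)))
    (τ • Dl (KK (D.G q) * KK (D.G q) + EK (D.G q) (D.mu q)) - Dl (KK (D.G q))) D.S
    (fun c => τ • Dl (dK (D.G q) c)) D.e₀ D.ϖ (Cw * D.δ) ν τ D.p hX ht1 ht2 ht3 hτ0 hp2 he0 hϖ0
    (by positivity) hδ1 hν0 (smul_symm (Dl_symm (KK_symm hs)) τ) hqv
    (smul_row (Dl_row _) τ)
    (fun a b => by
      have h1 : ∀ a b, (KK (D.G q) * KK (D.G q) + EK (D.G q) (D.mu q)) a b =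
          (KK (D.G q) * KK (D.G q) + EK (D.G q) (D.mu q)) b a := by
        intro a b
        rw [Matrix.add_apply, Matrix.add_apply, mul_symm (KK_symm hs) a b, EK_symm hs _ a b]
      rw [Matrix.sub_apply, Matrix.sub_apply, smul_symm (Dl_symm h1) τ a b,
        Dl_symm (KK_symm hs) a b])
    (fun a => by
      simp only [Matrix.sub_apply]
      rw [Finset.sum_sub_distrib, smul_row (Dl_row _) τ a, Dl_row, sub_zero])
    (fun c => smul_symm (Dl_symm (dK_symm hs c)) τ)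
    (fun c => smul_row (Dl_row _) τ) hS1 hS2 hS3 (fun f => (hw f).1) hnoise hϖ' (by
      have h5 := hgoo.h5
      unfold Dat.U5 Dat.W Dat.A at h5
      rw [← hτ1] at h5
      have h6 : D.X q = τ • Dl (KK (D.G q)) := by
        rw [hτ1]
        rfl
      rw [h6] at h5
      exact h5)
  have hU5 : (fun r : ℝ × (Tor d M → ℝ) => Matrix.trace (((D.e₀ •
      (1 : Matrix (Tor d M) (Tor d M) ℝ) + D.ta r.1 • D.S)⁻¹ *
        (D.X r + P0 (Tor d M) + D.ϖ • (1 : Matrix (Tor d M) (Tor d M) ℝ))⁻¹) ^ D.p)) = D.U5 := rfl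
  rw [hU5] at hHJ
  refine ⟨hHJ.sm, ?_⟩
  rw [hHJ.ge]
  have hval := hHJ.vl
  rw [← hval] at hl'
  refine hl'.trans ?_
  have hcard : (Fintype.card (Tor d M) : ℝ) = (M : ℝ) ^ d := by
    rw [Fintype.card_fun, ZMod.card, Fintype.card_fin, Nat.cast_pow]
  rw [hcard]
  have hU0 : 0 ≤ D.U5 q := (nnu d M D c₁ C₁ c₀ q hc₁ had hkp).2.2.2.2
  obtain ⟨Z, hZ⟩ : ∃ Z, Z = (M : ℝ) ^ d * (1 / D.e₀) ^ D.p := ⟨_, rfl⟩
  have hZ0 : 0 ≤ Z := by
    rw [hZ]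
    positivity
  rw [← hZ]
  -- numbers
  have hp1 : (1 : ℝ) ≤ D.p := by
    have : 1 ≤ D.p := by omega
    exact_mod_cast this
  have haN : D.p * D.δ + D.p ^ 2 * B ≤ D.aN := by
    unfold Dat.aN
    rw [hB]
    have hch : 0 ≤ D.ch := by
      unfold Dat.ch
      positivity
    have hε0 : 0 < D.ε₁ := lt_of_lt_of_le hδ0 had.hδ.2.1
    have h1 : 0 ≤ (D.j : ℝ) * (D.h ^ 2 * (D.δ + Real.sqrt D.ch / D.δ) + D.δ / D.ε₁) := by
      positivity
    have h2 : 0 ≤ (D.j : ℝ) ^ 2 * (D.h ^ 4 * (D.ch / D.δ ^ 2) +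
        (D.N * D.w + D.δ ^ 2) / D.ε₁ ^ 2 + 1 / Real.sqrt D.L₀ + D.ε₁ + (D.e₀ - 1)) := by
      have h3 : 0 ≤ D.e₀ - 1 := by linarith
      positivity
    linarith
  have hBp : 0 ≤ (D.p : ℝ) ^ 2 * B := by positivity
  have hpB : D.p * B ≤ (D.p : ℝ) ^ 2 * B := by
    refine mul_le_mul_of_nonneg_right ?_ hB0
    nlinarith
  have hτi : 1 / τ ≤ C₀ / κ := by
    rw [div_le_div_iff₀ hτ0 hκ0, one_mul]
    exact hκτ
  have hpδ : 0 ≤ D.p * D.δ := by positivity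
  -- the rate
  have r1 : D.p * (2 * (Cw * D.δ) / τ + ν) + D.p ^ 2 * ν * D.e₀ ≤
      6 * Cw * C₀ * D.aN / κ := by
    have h1 : (D.p : ℝ) * (2 * (Cw * D.δ) / τ) ≤ 2 * Cw * C₀ / κ * (D.p * D.δ) := by
      have h2 : (D.p : ℝ) * (2 * (Cw * D.δ) / τ) = 2 * Cw * (D.p * D.δ) * (1 / τ) := by ring
      have h3 : 2 * Cw * C₀ / κ * (D.p * D.δ) = 2 * Cw * (D.p * D.δ) * (C₀ / κ) := by ring
      rw [h2, h3]
      exact mul_le_mul_of_nonneg_left hτi (by positivity)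
    have h2 : (D.p : ℝ) * ν ≤ 2 * Cw * C₀ / κ * (D.p ^ 2 * B) := by
      rw [hν]
      have h3 : (D.p : ℝ) * (2 * Cw * C₀ / κ * B) = 2 * Cw * C₀ / κ * (D.p * B) := by ring
      rw [h3]
      exact mul_le_mul_of_nonneg_left hpB (by positivity)
    have h3 : (D.p : ℝ) ^ 2 * ν * D.e₀ ≤ 2 * Cw * C₀ / κ * (2 * (D.p ^ 2 * B)) := by
      have h4 : (D.p : ℝ) ^ 2 * ν * D.e₀ ≤ D.p ^ 2 * ν * 2 :=
        mul_le_mul_of_nonneg_left he3 (by positivity)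
      refine h4.trans (le_of_eq ?_)
      rw [hν]
      ring
    have h4 : 2 * Cw * C₀ / κ * (D.p * D.δ + 3 * (D.p ^ 2 * B)) ≤
        2 * Cw * C₀ / κ * (3 * D.aN) := by
      refine mul_le_mul_of_nonneg_left ?_ (by positivity)
      linarith
    have h5 : 6 * Cw * C₀ * D.aN / κ = 2 * Cw * C₀ / κ * (3 * D.aN) := by ring
    rw [h5]
    have h6 : (D.p : ℝ) * (2 * (Cw * D.δ) / τ + ν) = D.p * (2 * (Cw * D.δ) / τ) + D.p * ν := by
      ring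
    rw [h6]
    have h7 : 2 * Cw * C₀ / κ * (D.p * D.δ + 3 * (D.p ^ 2 * B)) =
        2 * Cw * C₀ / κ * (D.p * D.δ) + 2 * Cw * C₀ / κ * (D.p ^ 2 * B) +
          2 * Cw * C₀ / κ * (2 * (D.p ^ 2 * B)) := by ring
    linarith
  have r2 : (D.p : ℝ) / τ + D.p ^ 2 * ν * D.e₀ ≤
      6 * Cw * C₀ * D.aN / κ + 6 * Cw * C₀ * D.p / κ := by
    have h1 : (D.p : ℝ) / τ ≤ 6 * Cw * C₀ * D.p / κ := by
      have h2 : (D.p : ℝ) / τ = D.p * (1 / τ) := by ring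
      have h3 : (D.p : ℝ) * (1 / τ) ≤ D.p * (C₀ / κ) :=
        mul_le_mul_of_nonneg_left hτi (by positivity)
      have h4 : (D.p : ℝ) * (C₀ / κ) ≤ 6 * Cw * C₀ * D.p / κ := by
        have h5 : 6 * Cw * C₀ * D.p / κ = 6 * Cw * (D.p * (C₀ / κ)) := by ring
        rw [h5]
        have h6 : 0 ≤ (D.p : ℝ) * (C₀ / κ) := by positivity
        nlinarith
      rw [h2]
      exact h3.trans h4
    have h2 : (D.p : ℝ) ^ 2 * ν * D.e₀ ≤ 6 * Cw * C₀ * D.aN / κ := by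
      have h3 : 0 ≤ (D.p : ℝ) * (2 * (Cw * D.δ) / τ + ν) := by positivity
      linarith
    linarith
  have e1 := mul_le_mul_of_nonneg_left r2 hZ0
  have e2 := mul_le_mul_of_nonneg_right r1 hU0
  refine (add_le_add e2 e1).trans (le_of_eq ?_)
  ring

end Pool.Agent.LE.QX.H38
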